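import Mathlib

/-!
# Minimum degree and the lower PSD forcing irredundance number

We prove `δ(G) ≤ z_+ir(G)` for every finite simple graph `G`.
-/

set_option autoImplicit false

namespace Pool.Agent.Results.MP_3c4d8f_co.MinDegree

/-- A PSD fort of `G`: a nonempty set `F` of vertices such that for every vertex `v` outside `F`
and every connected component `W` of the induced subgraph `G[F]`, the number of neighbours of `v`
in `W` is different from `1`. -/
def IsPSDFort {V : Type*} (G : SimpleGraph V) (F : Set V) : Prop :=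
  F.Nonempty ∧ ∀ v : V, v ∉ F → ∀ W : (G.induce F).ConnectedComponent,
    (G.neighborSet v ∩ (Subtype.val '' W.supp)).ncard ≠ 1

/-- `S` is a `Z₊Ir`-set of `G`: every `u ∈ S` has a private PSD fort relative to `S`, that is a
PSD fort `F` with `S ∩ F = {u}`. -/
def IsZPlusIrSet {V : Type*} (G : SimpleGraph V) (S : Set V) : Prop :=
  ∀ u ∈ S, ∃ F : Set V, IsPSDFort G F ∧ S ∩ F = {u}

/-- The lower PSD forcing irredundance number `z_+ir(G)`: the least cardinality of an
inclusion-maximal `Z₊Ir`-set of `G`. -/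
noncomputable def lowerPSDIrredundance {V : Type*} (G : SimpleGraph V) : ℕ :=
  sInf {k : ℕ | ∃ S : Set V, Maximal (IsZPlusIrSet G) S ∧ S.ncard = k}

section Proof

open Finset Classical

variable {V : Type*} [Fintype V] (G : SimpleGraph V)

/-- outer neighbourhood of a set -/
noncomputable def nb (X : Finset V) : Finset V :=
  univ.filter (fun y => y ∉ X ∧ ∃ x ∈ X, G.Adj x y)

/-- neighbours of a vertex -/
noncomputable def ng (v : V) : Finset V := univ.filter (fun y => G.Adj v y)

variable {G}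

lemma mem_nb {X : Finset V} {y : V} : y ∈ nb G X ↔ y ∉ X ∧ ∃ x ∈ X, G.Adj x y := by
  simp [nb]

lemma mem_ng {v y : V} : y ∈ ng G v ↔ G.Adj v y := by
  simp [ng]

lemma nb_singleton (w : V) : nb G {w} = ng G w := by
  ext y
  simp only [mem_nb, mem_ng, mem_singleton]
  constructor
  · rintro ⟨_, x, rfl, h⟩; exact h
  · intro h; exact ⟨h.ne', w, rfl, h⟩

/-- `D` has no nonempty proper relatively closed subset -/
def Conn (G : SimpleGraph V) (D : Finset V) : Prop :=
  ∀ K : Finset V, K ⊆ D → K.Nonempty → (∀ y ∈ nb G K, y ∉ D) → K = D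

/-- closed under the fort condition with one component -/
def FortLike (G : SimpleGraph V) (D : Finset V) : Prop :=
  ∀ t, t ∉ D → (ng G t ∩ D).card ≠ 1

/-- The key lemma of the argument. -/
lemma key {X C A0 A1 : Finset V} {m : ℕ} {v u : V}
    (hm : m = (nb G X).card)
    (hX3 : ∀ Z : Finset V, Z.Nonempty → Z ⊂ X → m + 1 ≤ (nb G Z).card)
    (hXC : X ⊆ C) (hv : v ∈ X) (hu : u ∈ C) (huX : u ∉ X) (hC : Conn G C)
    (hA0 : A0 = nb G X \ C) (hA1 : A1 = nb G X ∩ C)
    {D : Finset V} (hD1 : C \ X ⊆ D) (hD2 : D ⊆ C) (hvD : v ∉ D) (hDX : (D ∩ X).Nonempty)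
    (hK : ∀ K : Finset V, K ⊆ D → K.Nonempty → (∀ y ∈ nb G K, y ∉ D) →
      (nb G K ∩ (X ∪ A0)).card ≤ A0.card + 1) :
    Conn G D ∧ nb G D ∩ (X ∪ A0) ⊆ nb G (D ∩ X) ∧ (nb G (D ∩ X)).card ≤ m + 1 := by
  have hcard : A0.card + A1.card = m := by
    rw [hA0, hA1, hm, ← Finset.card_sdiff_add_card_inter (nb G X) C]
  have hA1ne : A1.Nonempty := by
    by_contra hne
    rw [Finset.not_nonempty_iff_eq_empty] at hne
    have : X = C := by
      apply hC X hXC ⟨v, hv⟩
      intro y hy hyC
      have : y ∈ A1 := by rw [hA1]; exact mem_inter.2 ⟨hy, hyC⟩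
      rw [hne] at this
      simp at this
    exact huX (this ▸ hu)
  -- basic counting
  have sub1 : ∀ K : Finset V, K ⊆ D → (∀ y ∈ nb G K, y ∉ D) →
      nb G (K ∩ X) ⊆ (nb G K ∩ (X ∪ A0)) ∪ (A1 ∩ K) := by
    intro K hKD hcl y hy
    rw [mem_nb] at hy
    obtain ⟨hyK, z, hz, hzy⟩ := hy
    rw [mem_inter] at hz
    by_cases hyK' : y ∈ K
    · have hyX : y ∉ X := fun h => hyK (mem_inter.2 ⟨hyK', h⟩)
      apply mem_union_right
      rw [mem_inter]
      refine ⟨?_, hyK'⟩
      rw [hA1, mem_inter]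
      exact ⟨mem_nb.2 ⟨hyX, z, hz.2, hzy⟩, hD2 (hKD hyK')⟩
    · have hynK : y ∈ nb G K := mem_nb.2 ⟨hyK', z, hz.1, hzy⟩
      have hyD : y ∉ D := hcl y hynK
      apply mem_union_left
      rw [mem_inter]
      refine ⟨hynK, ?_⟩
      rw [mem_union]
      by_cases hyX : y ∈ X
      · exact Or.inl hyX
      · right
        rw [hA0, mem_sdiff]
        refine ⟨mem_nb.2 ⟨hyX, z, hz.2, hzy⟩, ?_⟩
        intro hyC
        exact hyD (hD1 (mem_sdiff.2 ⟨hyC, hyX⟩))
  have prop : ∀ K : Finset V, K ⊆ D → (K ∩ X).Nonempty → m + 1 ≤ (nb G (K ∩ X)).card := by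
    intro K hKD hne
    apply hX3 _ hne
    rw [Finset.ssubset_iff_of_subset inter_subset_right]
    exact ⟨v, hv, fun h => hvD (hKD (mem_inter.1 h).1)⟩
  have A1K : ∀ K : Finset V, K ⊆ D → (∀ y ∈ nb G K, y ∉ D) → (K ∩ X).Nonempty → A1 ⊆ K := by
    intro K hKD hcl hne
    have h1 := prop K hKD hne
    have h2 := card_le_card (sub1 K hKD hcl)
    have h3 := card_union_le (nb G K ∩ (X ∪ A0)) (A1 ∩ K)
    have h4 := hK K hKD (hne.mono inter_subset_left) hcl
    have h5 : A1.card ≤ (A1 ∩ K).card := by omega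
    have h6 : A1 ∩ K = A1 := eq_of_subset_of_card_le inter_subset_left h5
    exact inter_eq_left.1 h6
  have compl_closed : ∀ K : Finset V, K ⊆ D → (∀ y ∈ nb G K, y ∉ D) →
      ∀ y ∈ nb G (D \ K), y ∉ D := by
    intro K hKD hcl y hy hyD
    rw [mem_nb] at hy
    obtain ⟨hy1, x, hx, hxy⟩ := hy
    rw [mem_sdiff] at hx
    have hyK : y ∈ K := by
      by_contra h
      exact hy1 (mem_sdiff.2 ⟨hyD, h⟩)
    exact hcl x (mem_nb.2 ⟨hx.2, y, hyK, hxy.symm⟩) hx.1
  -- if K is closed and meets X then K = D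
  have big : ∀ K : Finset V, K ⊆ D → (∀ y ∈ nb G K, y ∉ D) → (K ∩ X).Nonempty → K = D := by
    intro K hKD hcl hne
    by_contra hneq
    have hss : (D \ K).Nonempty := by
      rw [sdiff_nonempty]
      intro h
      exact hneq (Subset.antisymm hKD h)
    have hA1K := A1K K hKD hcl hne
    have hcl' := compl_closed K hKD hcl
    by_cases hmeet : ((D \ K) ∩ X).Nonempty
    · have h := A1K (D \ K) sdiff_subset hcl' hmeet
      obtain ⟨a, ha⟩ := hA1ne
      exact (mem_sdiff.1 (h ha)).2 (hA1K ha)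
    · rw [Finset.not_nonempty_iff_eq_empty] at hmeet
      have hclC : ∀ y ∈ nb G (D \ K), y ∉ C := by
        intro y hy hyC
        have hyD := hcl' y hy
        have hyX : y ∈ X := by
          by_contra h
          exact hyD (hD1 (mem_sdiff.2 ⟨hyC, h⟩))
        obtain ⟨_, x, hx, hxy⟩ := mem_nb.1 hy
        have hxX : x ∉ X := fun h => by
          have : x ∈ (D \ K) ∩ X := mem_inter.2 ⟨hx, h⟩
          rw [hmeet] at this
          simp at this
        have hxA1 : x ∈ A1 := by
          rw [hA1, mem_inter]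
          exact ⟨mem_nb.2 ⟨hxX, y, hyX, hxy.symm⟩, hD2 (mem_sdiff.1 hx).1⟩
        exact (mem_sdiff.1 hx).2 (hA1K hxA1)
      have heq := hC (D \ K) (sdiff_subset.trans hD2) hss hclC
      have : v ∈ D \ K := by rw [heq]; exact hXC hv
      exact hvD (mem_sdiff.1 this).1
  have hconn : Conn G D := by
    intro K hKD hne hcl
    by_cases hmeet : (K ∩ X).Nonempty
    · exact big K hKD hcl hmeet
    · have hmeet' : ((D \ K) ∩ X).Nonempty := by
        obtain ⟨a, ha⟩ := hDX
        rw [mem_inter] at ha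
        refine ⟨a, mem_inter.2 ⟨mem_sdiff.2 ⟨ha.1, fun h => hmeet ⟨a, mem_inter.2 ⟨h, ha.2⟩⟩⟩, ha.2⟩⟩
      have := big (D \ K) sdiff_subset (compl_closed K hKD hcl) hmeet'
      obtain ⟨a, ha⟩ := hne
      have haD : a ∈ D \ K := by rw [this]; exact hKD ha
      exact absurd ha (mem_sdiff.1 haD).2
  have hDcl : ∀ y ∈ nb G D, y ∉ D := fun y hy => (mem_nb.1 hy).1
  have hsub := sub1 D Subset.rfl hDcl
  have hA1D := A1K D Subset.rfl hDcl hDX
  have hle : ((nb G D ∩ (X ∪ A0)) ∪ (A1 ∩ D)).card ≤ m + 1 := by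
    have h3 := card_union_le (nb G D ∩ (X ∪ A0)) (A1 ∩ D)
    have h4 := hK D Subset.rfl (hDX.mono inter_subset_left) hDcl
    have h5 : (A1 ∩ D).card ≤ A1.card := card_le_card inter_subset_left
    omega
  have hge := prop D Subset.rfl hDX
  have heq := eq_of_subset_of_card_le hsub (hle.trans hge)
  refine ⟨hconn, ?_, ?_⟩
  · rw [heq]; exact subset_union_left
  · exact (card_le_card hsub).trans hle


/-- Existence of the lexicographically minimal set `X`. -/
lemma exists_X [Nonempty V] {S : Finset V} (hdeg : ∀ v, S.card + 1 ≤ (ng G v).card) :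
    ∃ X : Finset V, X.Nonempty ∧ Disjoint X S ∧ (nb G X).card ≤ S.card ∧
      (∀ Z : Finset V, Z.Nonempty → Disjoint Z S → (nb G X).card ≤ (nb G Z).card) ∧
      (∀ Z : Finset V, Z.Nonempty → Z ⊂ X → (nb G X).card + 1 ≤ (nb G Z).card) := by
  obtain ⟨v0⟩ := (inferInstance : Nonempty V)
  have hne : (univ \ S).Nonempty := by
    rw [sdiff_nonempty]
    intro h
    have h1 := card_le_card h
    have h2 : (ng G v0).card ≤ (univ : Finset V).card := card_le_card (subset_univ _)
    have h3 := hdeg v0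
    omega
  let P : Finset (Finset V) := univ.filter (fun Z => Z.Nonempty ∧ Disjoint Z S)
  have hP : P.Nonempty := ⟨univ \ S, by
    simp only [P, mem_filter, mem_univ, true_and]
    exact ⟨hne, sdiff_disjoint⟩⟩
  obtain ⟨X0, hX0, hmin0⟩ := exists_min_image P (fun Z => (nb G Z).card) hP
  let Q : Finset (Finset V) := P.filter (fun Z => (nb G Z).card = (nb G X0).card)
  have hQ : Q.Nonempty := ⟨X0, by simp only [Q, mem_filter, and_true]; exact hX0⟩
  obtain ⟨X, hX, hmin⟩ := exists_min_image Q (fun Z => Z.card) hQ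
  have hXQ := hX
  simp only [Q, P, mem_filter, mem_univ, true_and] at hX
  obtain ⟨⟨hXne, hXS⟩, hXc⟩ := hX
  refine ⟨X, hXne, hXS, ?_, ?_, ?_⟩
  · rw [hXc]
    have h1 := hmin0 (univ \ S) (by
      simp only [P, mem_filter, mem_univ, true_and]
      exact ⟨hne, sdiff_disjoint⟩)
    refine h1.trans (card_le_card ?_)
    intro y hy
    rw [mem_nb] at hy
    by_contra h
    exact hy.1 (mem_sdiff.2 ⟨mem_univ _, h⟩)
  · intro Z hZ hZS
    rw [hXc]
    exact hmin0 Z (by simp only [P, mem_filter, mem_univ, true_and]; exact ⟨hZ, hZS⟩)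
  · intro Z hZ hZX
    have hZS : Disjoint Z S := Disjoint.mono_left hZX.subset hXS
    have h1 := hmin0 Z (by simp only [P, mem_filter, mem_univ, true_and]; exact ⟨hZ, hZS⟩)
    have h2 : (nb G Z).card ≠ (nb G X0).card := by
      intro h
      have h3 := hmin Z (by
        simp only [Q, P, mem_filter, mem_univ, true_and]
        exact ⟨⟨hZ, hZS⟩, h⟩)
      have h4 := card_lt_card hZX
      omega
    omega

lemma conn_univ_sdiff {S : Finset V} {X : Finset V} {u : V} (hu : u ∈ S)
    (hXc : (nb G X).card = S.card)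
    (hX2 : ∀ Z : Finset V, Z.Nonempty → Disjoint Z S → (nb G X).card ≤ (nb G Z).card) :
    Conn G (univ \ S.erase u) := by
  have aux : ∀ K : Finset V, K ⊆ univ \ S.erase u → K.Nonempty →
      (∀ y ∈ nb G K, y ∉ univ \ S.erase u) → u ∈ K := by
    intro K hK hne hcl
    by_contra huK
    have hdis : Disjoint K S := by
      rw [Finset.disjoint_left]
      intro a ha haS
      have := hK ha
      rw [mem_sdiff, mem_erase] at this
      apply this.2
      refine ⟨?_, haS⟩
      rintro rfl
      exact huK ha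
    have h1 := hX2 K hne hdis
    have h2 : nb G K ⊆ S.erase u := by
      intro y hy
      by_contra h
      exact hcl y hy (mem_sdiff.2 ⟨mem_univ _, h⟩)
    have h3 := card_le_card h2
    rw [card_erase_of_mem hu] at h3
    have h4 : 0 < S.card := card_pos.2 ⟨u, hu⟩
    omega
  intro K hK hne hcl
  have huK := aux K hK hne hcl
  by_contra hneq
  have hss : ((univ \ S.erase u) \ K).Nonempty := by
    rw [sdiff_nonempty]
    intro h
    exact hneq (Subset.antisymm hK h)
  have := aux ((univ \ S.erase u) \ K) sdiff_subset hss (by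
    intro y hy hyD
    rw [mem_nb] at hy
    obtain ⟨hy1, x, hx, hxy⟩ := hy
    have hyK : y ∈ K := by
      by_contra h
      exact hy1 (mem_sdiff.2 ⟨hyD, h⟩)
    exact hcl x (mem_nb.2 ⟨(mem_sdiff.1 hx).2, y, hyK, hxy.symm⟩) (mem_sdiff.1 hx).1)
  exact (mem_sdiff.1 this).2 huK

/-- a vertex outside `univ \ T` has many neighbours in `univ \ T` -/
lemma fortLike_compl {T : Finset V} {k : ℕ} (hdeg : ∀ v, k + 1 ≤ (ng G v).card)
    (hT : T.card ≤ k) : FortLike G (univ \ T) := by
  intro t ht
  have htT : t ∈ T := by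
    by_contra h
    exact ht (mem_sdiff.2 ⟨mem_univ _, h⟩)
  have h1 : ng G t ⊆ (ng G t ∩ (univ \ T)) ∪ T.erase t := by
    intro y hy
    by_cases hyT : y ∈ T
    · apply mem_union_right
      rw [mem_erase]
      refine ⟨?_, hyT⟩
      rintro rfl
      exact (mem_ng.1 hy).ne rfl
    · apply mem_union_left
      exact mem_inter.2 ⟨hy, mem_sdiff.2 ⟨mem_univ _, hyT⟩⟩
  have h2 := card_le_card h1
  have h3 := card_union_le (ng G t ∩ (univ \ T)) (T.erase t)
  rw [card_erase_of_mem htT] at h3
  have h4 : 0 < T.card := card_pos.2 ⟨t, htT⟩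
  have h5 := hdeg t
  omega

lemma conn_union {C X : Finset V} {v : V} (hC : Conn G C) (hX : Conn G X) (hvC : v ∈ C)
    (hvX : v ∈ X) : Conn G (C ∪ X) := by
  intro K hK hne hcl
  have h1 : (K ∩ C).Nonempty → K ∩ C = C := by
    intro h
    apply hC _ inter_subset_right h
    intro y hy hyC
    obtain ⟨hy1, x, hx, hxy⟩ := mem_nb.1 hy
    have hyK : y ∉ K := fun h => hy1 (mem_inter.2 ⟨h, hyC⟩)
    exact hcl y (mem_nb.2 ⟨hyK, x, (mem_inter.1 hx).1, hxy⟩) (mem_union_left _ hyC)
  have h2 : (K ∩ X).Nonempty → K ∩ X = X := by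
    intro h
    apply hX _ inter_subset_right h
    intro y hy hyC
    obtain ⟨hy1, x, hx, hxy⟩ := mem_nb.1 hy
    have hyK : y ∉ K := fun h => hy1 (mem_inter.2 ⟨h, hyC⟩)
    exact hcl y (mem_nb.2 ⟨hyK, x, (mem_inter.1 hx).1, hxy⟩) (mem_union_right _ hyC)
  have hvK : v ∈ K := by
    obtain ⟨a, ha⟩ := hne
    rcases mem_union.1 (hK ha) with h | h
    · have := h1 ⟨a, mem_inter.2 ⟨ha, h⟩⟩
      rw [← this] at hvC
      exact (mem_inter.1 hvC).1
    · have := h2 ⟨a, mem_inter.2 ⟨ha, h⟩⟩
      rw [← this] at hvX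
      exact (mem_inter.1 hvX).1
  have h3 := h1 ⟨v, mem_inter.2 ⟨hvK, hvC⟩⟩
  have h4 := h2 ⟨v, mem_inter.2 ⟨hvK, hvX⟩⟩
  apply Subset.antisymm hK
  apply union_subset
  · rw [← h3]; exact inter_subset_left
  · rw [← h4]; exact inter_subset_left

lemma fortLike_union {C X : Finset V} (hC : FortLike G C) (hX : FortLike G X) :
    FortLike G (C ∪ X) := by
  intro t ht h1
  rw [card_eq_one] at h1
  obtain ⟨w, hw⟩ := h1
  have hwm : w ∈ ng G t ∩ (C ∪ X) := by rw [hw]; exact mem_singleton_self w
  rw [mem_inter, mem_union] at hwm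
  rcases hwm.2 with h | h
  · apply hC t (fun h => ht (mem_union_left _ h))
    rw [card_eq_one]
    refine ⟨w, Subset.antisymm ?_ ?_⟩
    · rw [← hw]; exact inter_subset_inter_left subset_union_left
    · rw [singleton_subset_iff]; exact mem_inter.2 ⟨hwm.1, h⟩
  · apply hX t (fun h => ht (mem_union_right _ h))
    rw [card_eq_one]
    refine ⟨w, Subset.antisymm ?_ ?_⟩
    · rw [← hw]; exact inter_subset_inter_left subset_union_right
    · rw [singleton_subset_iff]; exact mem_inter.2 ⟨hwm.1, h⟩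

/-- the minimal set `X` is connected and a fort -/
lemma X_good {S X : Finset V} (hdeg : ∀ v, S.card + 1 ≤ (ng G v).card)
    (hXS : (nb G X).card ≤ S.card)
    (hX3 : ∀ Z : Finset V, Z.Nonempty → Z ⊂ X → (nb G X).card + 1 ≤ (nb G Z).card) :
    Conn G X ∧ FortLike G X := by
  constructor
  · intro K hK hne hcl
    by_contra hneq
    have h1 := hX3 K hne (lt_of_le_of_ne hK hneq)
    have h2 : nb G K ⊆ nb G X := by
      intro y hy
      obtain ⟨_, x, hx, hxy⟩ := mem_nb.1 hy
      exact mem_nb.2 ⟨hcl y hy, x, hK hx, hxy⟩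
    have := card_le_card h2
    omega
  · intro t ht h1
    rw [card_eq_one] at h1
    obtain ⟨w, hw⟩ := h1
    have hwm : w ∈ ng G t ∩ X := by rw [hw]; exact mem_singleton_self w
    rw [mem_inter, mem_ng] at hwm
    have htX : t ∈ nb G X := mem_nb.2 ⟨ht, w, hwm.2, hwm.1.symm⟩
    by_cases hne : (X.erase w).Nonempty
    · have h2 := hX3 (X.erase w) hne (erase_ssubset hwm.2)
      have h3 : nb G (X.erase w) ⊆ insert w ((nb G X).erase t) := by
        intro y hy
        obtain ⟨hy1, x, hx, hxy⟩ := mem_nb.1 hy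
        by_cases hyw : y = w
        · rw [hyw]; exact mem_insert_self _ _
        · apply mem_insert_of_mem
          have hxX := mem_of_mem_erase hx
          have hyX : y ∉ X := fun h => hy1 (mem_erase.2 ⟨hyw, h⟩)
          rw [mem_erase]
          refine ⟨?_, mem_nb.2 ⟨hyX, x, hxX, hxy⟩⟩
          rintro rfl
          have : x ∈ ng G y ∩ X := mem_inter.2 ⟨mem_ng.2 hxy.symm, hxX⟩
          rw [hw, mem_singleton] at this
          exact (mem_erase.1 hx).1 this
      have h4 := card_le_card h3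
      have h5 := card_insert_le w ((nb G X).erase t)
      rw [card_erase_of_mem htX] at h5
      have h6 : 0 < (nb G X).card := card_pos.2 ⟨t, htX⟩
      omega
    · rw [Finset.not_nonempty_iff_eq_empty] at hne
      have hXw : X = {w} := by
        apply Subset.antisymm
        · intro a ha
          rw [mem_singleton]
          by_contra h
          have : a ∈ X.erase w := mem_erase.2 ⟨h, ha⟩
          rw [hne] at this
          simp at this
        · rw [singleton_subset_iff]; exact hwm.2
      rw [hXw, nb_singleton] at hXS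
      have := hdeg w
      omega

theorem main_finset [Nonempty V] {S : Finset V} (hdeg : ∀ v, S.card + 1 ≤ (ng G v).card)
    (hind : ∀ u ∈ S, ∃ C : Finset V, Conn G C ∧ FortLike G C ∧ u ∈ C ∧ C ∩ S = {u}) :
    ∃ v, v ∉ S ∧ ∀ u ∈ insert v S, ∃ C : Finset V, Conn G C ∧ FortLike G C ∧ u ∈ C ∧
      C ∩ insert v S = {u} := by
  obtain ⟨X, hXne, hXS, hXc, hX2, hX3⟩ := exists_X hdeg
  obtain ⟨hXconn, hXfort⟩ := X_good hdeg hXc hX3
  obtain ⟨v, hv⟩ := hXne
  have hvS : v ∉ S := Finset.disjoint_left.1 hXS hv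
  refine ⟨v, hvS, ?_⟩
  intro u hu
  rw [mem_insert] at hu
  rcases hu with rfl | huS
  · refine ⟨X, hXconn, hXfort, hv, ?_⟩
    ext y
    simp only [mem_inter, mem_insert, mem_singleton]
    constructor
    · rintro ⟨h1, h2 | h2⟩
      · exact h2
      · exact absurd h2 (Finset.disjoint_left.1 hXS h1)
    · rintro rfl
      exact ⟨hv, Or.inl rfl⟩
  have huX : u ∉ X := fun h => Finset.disjoint_left.1 hXS h huS
  have huv : u ≠ v := by rintro rfl; exact hvS huS
  -- a reduction: a connected fort containing u, avoiding v, meeting S only in u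
  suffices h : ∃ D : Finset V, Conn G D ∧ FortLike G D ∧ u ∈ D ∧ v ∉ D ∧ D ∩ S ⊆ {u} by
    obtain ⟨D, h1, h2, h3, h4, h5⟩ := h
    refine ⟨D, h1, h2, h3, ?_⟩
    ext y
    simp only [mem_inter, mem_insert, mem_singleton]
    constructor
    · rintro ⟨h6, h7 | h7⟩
      · rw [h7] at h6; exact absurd h6 h4
      · exact mem_singleton.1 (h5 (mem_inter.2 ⟨h6, h7⟩))
    · rintro rfl
      exact ⟨h3, Or.inr huS⟩
  -- common setup
  have setup : ∀ C : Finset V, X ⊆ C → u ∈ C → Conn G C →
      ∀ K : Finset V, K ⊆ C.erase v → K.Nonempty → (∀ y ∈ nb G K, y ∉ C.erase v) →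
      (nb G K ∩ (X ∪ (nb G X \ C))).card ≤ (nb G X \ C).card + 1 := by
    intro C hXC huC hC K hK hne hcl
    have hsub : nb G K ∩ (X ∪ (nb G X \ C)) ⊆ insert v (nb G X \ C) := by
      intro y hy
      rw [mem_inter, mem_union] at hy
      rcases hy.2 with h | h
      · have h1 := hcl y hy.1
        have h2 : y = v := by
          by_contra h3
          exact h1 (mem_erase.2 ⟨h3, hXC h⟩)
        rw [h2]; exact mem_insert_self _ _
      · exact mem_insert_of_mem h
    exact (card_le_card hsub).trans (card_insert_le _ _)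
  -- X has another element
  have hXv : ((X.erase v)).Nonempty := by
    by_contra hne
    rw [Finset.not_nonempty_iff_eq_empty] at hne
    have hXw : X = {v} := by
      apply Subset.antisymm
      · intro a ha
        rw [mem_singleton]
        by_contra h
        have : a ∈ X.erase v := mem_erase.2 ⟨h, ha⟩
        rw [hne] at this
        simp at this
      · rw [singleton_subset_iff]; exact hv
    rw [hXw, nb_singleton] at hXc
    have := hdeg v
    omega
  by_cases hcase : (nb G X).card = S.card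
  · -- case m = k
    have hC : Conn G (univ \ S.erase u) := conn_univ_sdiff huS hcase hX2
    have hXC : X ⊆ univ \ S.erase u := by
      intro a ha
      rw [mem_sdiff]
      exact ⟨mem_univ _, fun h => Finset.disjoint_left.1 hXS ha (mem_of_mem_erase h)⟩
    have huC : u ∈ univ \ S.erase u := by simp
    obtain ⟨hD, _, _⟩ := key (D := (univ \ S.erase u).erase v) rfl hX3 hXC hv huC huX hC rfl rfl
      (by
        intro y hy
        rw [mem_sdiff] at hy
        rw [mem_erase]
        refine ⟨?_, hy.1⟩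
        rintro rfl
        exact hy.2 hv)
      (erase_subset _ _) (notMem_erase _ _)
      (by
        obtain ⟨a, ha⟩ := hXv
        rw [mem_erase] at ha
        exact ⟨a, mem_inter.2 ⟨mem_erase.2 ⟨ha.1, hXC ha.2⟩, ha.2⟩⟩)
      (setup _ hXC huC hC)
    have heq : (univ \ S.erase u).erase v = univ \ (insert v (S.erase u)) := by
      ext y
      simp only [mem_erase, mem_sdiff, mem_univ, true_and, mem_insert]
      tauto
    refine ⟨(univ \ S.erase u).erase v, hD, ?_, ?_, notMem_erase _ _, ?_⟩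
    · rw [heq]
      apply fortLike_compl (k := S.card) hdeg
      have h1 := card_insert_le v (S.erase u)
      rw [card_erase_of_mem huS] at h1
      have : 0 < S.card := card_pos.2 ⟨u, huS⟩
      omega
    · exact mem_erase.2 ⟨huv, huC⟩
    · intro y hy
      simp only [mem_inter, mem_erase, mem_sdiff, mem_univ, true_and] at hy
      rw [mem_singleton]
      by_contra h
      exact hy.1.2 ⟨h, hy.2⟩
  · -- case m < k
    have hlt : (nb G X).card + 1 ≤ S.card := by omega
    obtain ⟨C0, hC0, hF0, huC0, hC0S⟩ := hind u huS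
    by_cases hvC0 : v ∈ C0
    swap
    · exact ⟨C0, hC0, hF0, huC0, hvC0, hC0S.subset⟩
    set C := C0 ∪ X with hCdef
    have hXC : X ⊆ C := subset_union_right
    have huC : u ∈ C := mem_union_left _ huC0
    have hC : Conn G C := conn_union hC0 hXconn hvC0 hv
    have hF : FortLike G C := fortLike_union hF0 hXfort
    have hCS : C ∩ S ⊆ {u} := by
      intro y hy
      rw [mem_inter, hCdef, mem_union] at hy
      rcases hy.1 with h | h
      · rw [← hC0S]; exact mem_inter.2 ⟨h, hy.2⟩
      · exact absurd hy.2 (Finset.disjoint_left.1 hXS h)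
    let P : Finset (Finset V) := univ.filter (fun D => C \ X ⊆ D ∧ D ⊆ C ∧ v ∉ D ∧
      (D ∩ X).Nonempty ∧ ∀ K : Finset V, K ⊆ D → K.Nonempty → (∀ y ∈ nb G K, y ∉ D) →
      (nb G K ∩ (X ∪ (nb G X \ C))).card ≤ (nb G X \ C).card + 1)
    have hP : P.Nonempty := by
      refine ⟨C.erase v, ?_⟩
      simp only [P, mem_filter, mem_univ, true_and]
      refine ⟨?_, erase_subset _ _, notMem_erase _ _, ?_, setup C hXC huC hC⟩
      · intro y hy
        rw [mem_sdiff] at hy
        rw [mem_erase]
        refine ⟨?_, hy.1⟩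
        rintro rfl
        exact hy.2 hv
      · obtain ⟨a, ha⟩ := hXv
        rw [mem_erase] at ha
        exact ⟨a, mem_inter.2 ⟨mem_erase.2 ⟨ha.1, hXC ha.2⟩, ha.2⟩⟩
    obtain ⟨D, hDP, hmin⟩ := exists_min_image P (fun D => D.card) hP
    simp only [P, mem_filter, mem_univ, true_and] at hDP
    obtain ⟨hD1, hD2, hvD, hDX, hK⟩ := hDP
    obtain ⟨hDconn, hDsub, hDcard⟩ := key rfl hX3 hXC hv huC huX hC rfl rfl hD1 hD2 hvD hDX hK
    refine ⟨D, hDconn, ?_, hD1 (mem_sdiff.2 ⟨huC, huX⟩), hvD, ?_⟩
    swap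
    · exact (inter_subset_inter_right hD2).trans hCS
    intro t ht h1
    rw [card_eq_one] at h1
    obtain ⟨x, hx⟩ := h1
    have hxm : x ∈ ng G t ∩ D := by rw [hx]; exact mem_singleton_self x
    rw [mem_inter, mem_ng] at hxm
    have htD : t ∈ nb G D := mem_nb.2 ⟨ht, x, hxm.2, hxm.1.symm⟩
    -- t ∈ X ∪ A0
    have htX : t ∈ X ∪ (nb G X \ C) := by
      by_contra htX
      rw [mem_union, not_or, mem_sdiff, not_and_not_right] at htX
      have htC : t ∉ C := fun h => ht (hD1 (mem_sdiff.2 ⟨h, htX.1⟩))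
      have htnb : t ∉ nb G X := fun h => htC (htX.2 h)
      apply hF t htC
      rw [card_eq_one]
      refine ⟨x, ?_⟩
      rw [← hx]
      ext y
      simp only [mem_inter, mem_ng]
      constructor
      · rintro ⟨h2, h3⟩
        refine ⟨h2, hD1 (mem_sdiff.2 ⟨h3, ?_⟩)⟩
        intro h4
        exact htnb (mem_nb.2 ⟨htX.1, y, h4, h2.symm⟩)
      · rintro ⟨h2, h3⟩
        exact ⟨h2, hD2 h3⟩
    have hxX : x ∈ X := by
      have := hDsub (mem_inter.2 ⟨htD, htX⟩)
      obtain ⟨_, z, hz, hzt⟩ := mem_nb.1 this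
      rw [mem_inter] at hz
      have hzx : z ∈ ng G t ∩ D := mem_inter.2 ⟨mem_ng.2 hzt.symm, hz.1⟩
      rw [hx, mem_singleton] at hzx
      rw [← hzx]; exact hz.2
    have hD' : D.erase x ∈ P := by
      simp only [P, mem_filter, mem_univ, true_and]
      refine ⟨?_, (erase_subset _ _).trans hD2, fun h => hvD (mem_of_mem_erase h), ?_, ?_⟩
      · intro y hy
        rw [mem_erase]
        refine ⟨?_, hD1 hy⟩
        rintro rfl
        exact (mem_sdiff.1 hy).2 hxX
      · by_contra hne
        rw [Finset.not_nonempty_iff_eq_empty] at hne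
        have hDX1 : D ∩ X = {x} := by
          apply Subset.antisymm
          · intro a ha
            rw [mem_inter] at ha
            rw [mem_singleton]
            by_contra h
            have : a ∈ D.erase x ∩ X := mem_inter.2 ⟨mem_erase.2 ⟨h, ha.1⟩, ha.2⟩
            rw [hne] at this
            simp at this
          · rw [singleton_subset_iff]; exact mem_inter.2 ⟨hxm.2, hxX⟩
        rw [hDX1, nb_singleton] at hDcard
        have := hdeg x
        omega
      · intro K hKD hKne hKcl
        have hsub : nb G K ∩ (X ∪ (nb G X \ C)) ⊆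
            insert x ((nb G D ∩ (X ∪ (nb G X \ C))).erase t) := by
          intro y hy
          rw [mem_inter] at hy
          by_cases hyx : y = x
          · rw [hyx]; exact mem_insert_self _ _
          apply mem_insert_of_mem
          obtain ⟨hyK, z, hz, hzy⟩ := mem_nb.1 hy.1
          have hyD : y ∉ D := fun h => hKcl y hy.1 (mem_erase.2 ⟨hyx, h⟩)
          have hzD := hKD hz
          rw [mem_erase] at hzD
          rw [mem_erase]
          refine ⟨?_, mem_inter.2 ⟨mem_nb.2 ⟨hyD, z, hzD.2, hzy⟩, hy.2⟩⟩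
          rintro rfl
          have : z ∈ ng G y ∩ D := mem_inter.2 ⟨mem_ng.2 hzy.symm, hzD.2⟩
          rw [hx, mem_singleton] at this
          exact hzD.1 this
        have h2 := card_le_card hsub
        have h3 := card_insert_le x ((nb G D ∩ (X ∪ (nb G X \ C))).erase t)
        have htm : t ∈ nb G D ∩ (X ∪ (nb G X \ C)) := mem_inter.2 ⟨htD, htX⟩
        rw [card_erase_of_mem htm] at h3
        have h4 : 0 < (nb G D ∩ (X ∪ (nb G X \ C))).card := card_pos.2 ⟨t, htm⟩
        have h5 := hK D Subset.rfl (hDX.mono inter_subset_left) (fun y hy => (mem_nb.1 hy).1)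
        omega
    have h2 := hmin (D.erase x) hD'
    have h3 : 0 < D.card := card_pos.2 ⟨x, hxm.2⟩
    simp only [card_erase_of_mem hxm.2] at h2
    omega


/-- A connected fort-like set is a PSD fort. -/
lemma isPSDFort_of {D : Finset V} (hD : Conn G D) (hF : FortLike G D) (hne : D.Nonempty) :
    IsPSDFort G (D : Set V) := by
  refine ⟨by exact_mod_cast hne, ?_⟩
  intro t ht W
  have htD : t ∉ D := by exact_mod_cast ht
  -- the component is everything
  let K : Finset V := univ.filter (fun y => y ∈ Subtype.val '' W.supp)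
  have hmemK : ∀ y, y ∈ K ↔ ∃ h : y ∈ (D : Set V), (⟨y, h⟩ : (D : Set V)) ∈ W.supp := by
    intro y
    simp only [K, mem_filter, mem_univ, true_and, Set.mem_image, Subtype.exists, exists_and_right,
      exists_eq_right]
  have hKD : K ⊆ D := by
    intro y hy
    obtain ⟨h, _⟩ := (hmemK y).1 hy
    exact_mod_cast h
  have hKne : K.Nonempty := by
    obtain ⟨w, hw⟩ := W.nonempty_supp
    exact ⟨w.1, (hmemK _).2 ⟨w.2, hw⟩⟩
  have hKD' : K = D := by
    apply hD K hKD hKne
    intro y hy hyD
    obtain ⟨hyK, x, hx, hxy⟩ := mem_nb.1 hy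
    obtain ⟨hxD, hxW⟩ := (hmemK x).1 hx
    apply hyK
    have hyD' : y ∈ (D : Set V) := by exact_mod_cast hyD
    refine (hmemK y).2 ⟨hyD', ?_⟩
    rw [SimpleGraph.ConnectedComponent.mem_supp_iff] at hxW ⊢
    rw [← hxW]
    apply SimpleGraph.ConnectedComponent.sound
    apply SimpleGraph.Adj.reachable
    simpa using hxy.symm
  have himg : G.neighborSet t ∩ (Subtype.val '' W.supp) = ((ng G t ∩ D : Finset V) : Set V) := by
    ext y
    simp only [Set.mem_inter_iff, SimpleGraph.mem_neighborSet, coe_inter, mem_coe, mem_ng]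
    have h1 : y ∈ Subtype.val '' W.supp ↔ y ∈ K := by simp [K]
    rw [h1, Finset.ext_iff.1 hKD' y]
  rw [himg, Set.ncard_coe_finset]
  exact hF t htD

/-- The component of a PSD fort containing a given vertex. -/
lemma exists_of_isPSDFort {F : Set V} (hF : IsPSDFort G F) {u : V} (hu : u ∈ F) :
    ∃ C : Finset V, Conn G C ∧ FortLike G C ∧ u ∈ C ∧ (C : Set V) ⊆ F := by
  let W : (G.induce F).ConnectedComponent := (G.induce F).connectedComponentMk ⟨u, hu⟩
  let C : Finset V := univ.filter (fun y => y ∈ Subtype.val '' W.supp)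
  have hmemC : ∀ y, y ∈ C ↔ ∃ h : y ∈ F, (⟨y, h⟩ : F) ∈ W.supp := by
    intro y
    simp only [C, mem_filter, mem_univ, true_and, Set.mem_image, Subtype.exists, exists_and_right,
      exists_eq_right]
  have hCF : (C : Set V) ⊆ F := by
    intro y hy
    obtain ⟨h, _⟩ := (hmemC y).1 (by exact_mod_cast hy)
    exact h
  -- closedness in F
  have hcl : ∀ x ∈ C, ∀ y, G.Adj x y → y ∈ F → y ∈ C := by
    intro x hx y hxy hyF
    obtain ⟨hxF, hxW⟩ := (hmemC x).1 hx
    refine (hmemC y).2 ⟨hyF, ?_⟩
    rw [SimpleGraph.ConnectedComponent.mem_supp_iff] at hxW ⊢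
    rw [← hxW]
    apply SimpleGraph.ConnectedComponent.sound
    apply SimpleGraph.Adj.reachable
    simpa using hxy.symm
  refine ⟨C, ?_, ?_, ?_, hCF⟩
  · intro K hK hne hKcl
    apply Subset.antisymm hK
    obtain ⟨x, hx⟩ := hne
    obtain ⟨hxF, hxW⟩ := (hmemC x).1 (hK hx)
    intro y hy
    obtain ⟨hyF, hyW⟩ := (hmemC y).1 hy
    have hreach : (G.induce F).Reachable ⟨x, hxF⟩ ⟨y, hyF⟩ := by
      rw [SimpleGraph.ConnectedComponent.mem_supp_iff] at hxW hyW
      exact SimpleGraph.ConnectedComponent.exact (hxW.trans hyW.symm)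
    obtain ⟨p⟩ := hreach
    have main : ∀ (a b : F), (G.induce F).Walk a b → a.1 ∈ K → b.1 ∈ K := by
      intro a b p
      induction p with
      | nil => exact id
      | cons h _ ih =>
        rename_i a b c q
        intro ha
        apply ih
        by_contra hb
        have hadj : G.Adj a.1 b.1 := by simpa using h
        exact hKcl b.1 (mem_nb.2 ⟨hb, a.1, ha, hadj⟩) (hcl a.1 (hK ha) b.1 hadj b.2)
    exact main _ _ p hx
  · intro t ht h1
    by_cases htF : t ∈ F
    · rw [card_eq_one] at h1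
      obtain ⟨w, hw⟩ := h1
      have hwm : w ∈ ng G t ∩ C := by rw [hw]; exact mem_singleton_self w
      rw [mem_inter, mem_ng] at hwm
      exact ht (hcl w hwm.2 t hwm.1.symm htF)
    · apply hF.2 t htF W
      have himg : G.neighborSet t ∩ (Subtype.val '' W.supp) =
          ((ng G t ∩ C : Finset V) : Set V) := by
        ext y
        simp only [Set.mem_inter_iff, SimpleGraph.mem_neighborSet, coe_inter, mem_coe, mem_ng]
        have : y ∈ Subtype.val '' W.supp ↔ y ∈ C := by
          simp [C]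
        rw [this]
      rw [himg, Set.ncard_coe_finset]
      exact h1
  · exact (hmemC u).2 ⟨hu, by
      rw [SimpleGraph.ConnectedComponent.mem_supp_iff]⟩

theorem card_of_maximal [Nonempty V] [DecidableRel G.Adj] {S : Set V}
    (hS : Maximal (IsZPlusIrSet G) S) : G.minDegree ≤ S.ncard := by
  by_contra hlt
  rw [not_le] at hlt
  let S' : Finset V := univ.filter (fun y => y ∈ S)
  have hSS' : S = (S' : Set V) := by ext y; simp [S']
  have hcard : S.ncard = S'.card := by rw [hSS', Set.ncard_coe_finset]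
  have hdeg : ∀ v, S'.card + 1 ≤ (ng G v).card := by
    intro v
    have h1 := G.minDegree_le_degree v
    have h2 : (ng G v).card = G.degree v := by
      rw [← SimpleGraph.card_neighborFinset_eq_degree]
      congr 1
      ext y
      simp [mem_ng]
    omega
  have hind : ∀ u ∈ S', ∃ C : Finset V, Conn G C ∧ FortLike G C ∧ u ∈ C ∧ C ∩ S' = {u} := by
    intro u hu
    have huS : u ∈ S := by rw [hSS']; exact_mod_cast hu
    obtain ⟨F, hF, hSF⟩ := hS.prop u huS
    have huF : u ∈ F := by
      have : u ∈ S ∩ F := by rw [hSF]; exact Set.mem_singleton u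
      exact this.2
    obtain ⟨C, h1, h2, h3, h4⟩ := exists_of_isPSDFort hF huF
    refine ⟨C, h1, h2, h3, ?_⟩
    ext y
    simp only [mem_inter, mem_singleton]
    constructor
    · rintro ⟨h5, h6⟩
      have : y ∈ S ∩ F := ⟨by rw [hSS']; exact_mod_cast h6, h4 (by exact_mod_cast h5)⟩
      rw [hSF] at this
      exact this
    · rintro rfl
      exact ⟨h3, hu⟩
  obtain ⟨v, hvS, hv⟩ := main_finset hdeg hind
  have hnew : IsZPlusIrSet G (insert v S) := by
    intro u hu
    have hu' : u ∈ insert v S' := by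
      rw [mem_insert]
      rcases hu with h | h
      · exact Or.inl h
      · right; rw [hSS'] at h; exact_mod_cast h
    obtain ⟨C, h1, h2, h3, h4⟩ := hv u hu'
    refine ⟨C, isPSDFort_of h1 h2 ⟨u, h3⟩, ?_⟩
    have h5 : insert v S = ((insert v S' : Finset V) : Set V) := by
      rw [coe_insert, ← hSS']
    rw [h5, Set.inter_comm, ← coe_inter, h4, coe_singleton]
  have hle := hS.2 hnew (Set.subset_insert v S)
  have : v ∈ S := hle (Set.mem_insert v S)
  rw [hSS'] at this
  exact hvS (by exact_mod_cast this)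

end Proof

/-- For every finite simple graph `G` on a nonempty vertex set, `δ(G) ≤ z_+ir(G)`. -/
theorem result {V : Type*} [Fintype V] [Nonempty V] (G : SimpleGraph V) [DecidableRel G.Adj] :
    G.minDegree ≤ lowerPSDIrredundance G := by
  have hne : {k : ℕ | ∃ S : Set V, Maximal (IsZPlusIrSet G) S ∧ S.ncard = k}.Nonempty := by
    have hfin : {S : Set V | IsZPlusIrSet G S}.Finite := Set.toFinite _
    have hemp : {S : Set V | IsZPlusIrSet G S}.Nonempty := ⟨∅, fun u hu => absurd hu (by simp)⟩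
    obtain ⟨S, hS⟩ := hfin.exists_maximal hemp
    exact ⟨S.ncard, S, hS, rfl⟩
  obtain ⟨S, hS, hk⟩ := Nat.sInf_mem hne
  have := card_of_maximal hS
  unfold lowerPSDIrredundance
  rw [← hk]
  exact this

end Pool.Agent.Results.MP_3c4d8f_co.MinDegree
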